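import Pool.Agent.H.MP_c44da7_al.Main

namespace Pool.Agent.Results.MP_c44da7_al.Q1

open Pool.Agent.H.MP_c44da7_al

universe u

theorem result (f : FreeNonUnitalNonAssocAlgebra ℤ ℕ)
    (hf : (∀ (A : Type u) [NonUnitalNonAssocRing A], (∀ x y : A, x * y * y = x * (y * y)) →
        ∀ (g : FreeNonUnitalNonAssocAlgebra ℤ ℕ →ₙ+* A) (x y : A),
          x * y * g f - x * (y * g f) = 0) ∨
      (∀ (A : Type u) [NonUnitalNonAssocRing A], (∀ x y : A, x * y * y = x * (y * y)) →
        ∀ (g : FreeNonUnitalNonAssocAlgebra ℤ ℕ →ₙ+* A) (x y : A),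
          g f * x * y - g f * (x * y) = 0))
    (A : Type u) [NonUnitalNonAssocRing A] (hA : ∀ x y : A, x * y * y = x * (y * y))
    (g : FreeNonUnitalNonAssocAlgebra ℤ ℕ →ₙ+* A) : g f = 0 := by
  rcases hf with hf | hf
  · exact inc_eq_zero (right (inc (g f))
      (hf (Ext (Unitization ℤ A)) (ralt (ralt_unit hA)) (emb.comp (inc.comp g)) ex ey))
  · exact inc_eq_zero (left' (inc (g f))
      (hf (Ext (Unitization ℤ A)) (ralt (ralt_unit hA)) (dia.comp (inc.comp g)) (emb 1) ey))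

end Pool.Agent.Results.MP_c44da7_al.Q1
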